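import Mathlib
import Pool.Agent.P157G.FamL

/-!
The corona theorem on an arbitrary strictly pseudoconvex domain `D` of `ℂ²` (boundary of class `C²`), for
families of data which near every boundary point `p` are close to elements of the algebra generated
by all functions `f ∘ ψ`, where `f` is an arbitrary bounded holomorphic function on the unit disc
and `ψ` an arbitrary function holomorphic near `p` with `|ψ| < 1` on `D` near `p`, and by one
arbitrary bounded holomorphic function `G` on `D` near `p`.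

In particular (`tuples`): data `f_1 ∘ ψ_1, …, f_K ∘ ψ_K, G` with arbitrary `f_k` and `G` have
solutions with a bound depending on `D`, `ψ_1, …, ψ_K` and the lower bound `δ` only; and (`limits`) all
data which near every boundary point are uniform limits of elements of the algebra generated by all
`f ∘ ψ` and one arbitrary `G` have solutions.

`ℂ × ℂ` has the maximum norm, `ball p r` is a polydisc; only small neighbourhoods of points are used.

Files. `Pool/Agent/P157D`: the local theorem near a boundary point of a strictly concave model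
(support function, kernel for the curves `{ψ = ζ}`, weighted extension from the curves, an operator of
P. Jones type, removal of one function after the other, valence and area estimates).
`Pool/Agent/P157G`: the `∂̄` equation with bounded data on strictly pseudoconvex domains (local solution
operator `Mdl`, local coordinates `Nara`, bumping `Bump`, compactness `Fdim`, `SlvN`), division and
localisation (`DivL`, `LocL`), characters (`Glu`, `VCh`, `Clus`, `FamC`, `FamL`).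
-/

set_option autoImplicit false

open Metric Set Filter Topology

namespace Pool.Agent.Results.MP_ca0fc2_an.PseudoconvexLocal

/-- `D` is a bounded strictly pseudoconvex open set with boundary of class `C²`: `D = {z ∈ O | ρ z < 0}`
for some `ρ` of class `C²` on a neighbourhood `O` of the closure of `D`, and at every boundary point `p`
the differential of `ρ` is not zero and the Levi form of `ρ` is positive on the complex tangent
vectors `v ≠ 0` (`dρ(v) = dρ(iv) = 0`). The quantity `D²ρ(v, v) + D²ρ(iv, iv)` is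
`4 ∑ ∂²ρ/∂z_j∂z̄_k v_j v̄_k`. -/
structure StrictlyPseudoconvex (D : Set (ℂ × ℂ)) : Prop where
  bounded : Bornology.IsBounded D
  defining : ∃ (O : Set (ℂ × ℂ)) (ρ : ℂ × ℂ → ℝ), IsOpen O ∧ closure D ⊆ O ∧ ContDiffOn ℝ 2 ρ O ∧
    D = {z | z ∈ O ∧ ρ z < 0} ∧ ∀ p ∈ frontier D, fderiv ℝ ρ p ≠ 0 ∧
      ∀ v : ℂ × ℂ, v ≠ 0 → fderiv ℝ ρ p v = 0 → fderiv ℝ ρ p (Complex.I • v) = 0 →
        0 < fderiv ℝ (fderiv ℝ ρ) p v v + fderiv ℝ (fderiv ℝ ρ) p (Complex.I • v) (Complex.I • v)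

/-- `g` is holomorphic on `A` and `|g| ≤ C` there. -/
def HolBdd (A : Set (ℂ × ℂ)) (C : ℝ) (g : ℂ × ℂ → ℂ) : Prop :=
  DifferentiableOn ℂ g A ∧ ∀ z ∈ A, ‖g z‖ ≤ C

/-- `ψ` is holomorphic in a neighbourhood of `p`, and `|ψ| < 1` on `D` near `p`. -/
def Symbol (D : Set (ℂ × ℂ)) (p : ℂ × ℂ) (ψ : ℂ × ℂ → ℂ) : Prop :=
  AnalyticAt ℂ ψ p ∧ ∀ᶠ z in 𝓝 p, z ∈ D → ‖ψ z‖ < 1

/-- `G` is a uniformly bounded family of holomorphic functions on `D` near `p`. -/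
def BddNear {I : Type} (D : Set (ℂ × ℂ)) (p : ℂ × ℂ) (G : I → ℂ × ℂ → ℂ) : Prop :=
  ∃ r M : ℝ, 0 < r ∧ ∀ i, HolBdd (D ∩ ball p r) M (G i)

/-- The algebra of families near `p` generated by the family `G` and all families `f_i ∘ ψ`, where `ψ`
is a symbol at `p` and `f_i` a uniformly bounded family of holomorphic functions on the unit disc. -/
inductive Alg {I : Type} (D : Set (ℂ × ℂ)) (p : ℂ × ℂ) (G : I → ℂ × ℂ → ℂ) :
    (I → ℂ × ℂ → ℂ) → Prop
  | gen : Alg D p G G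
  | comp (f : I → ℂ → ℂ) (ψ : ℂ × ℂ → ℂ) (hf : ∀ i, DifferentiableOn ℂ (f i) (ball 0 1))
      (hb : ∃ C : ℝ, ∀ i, ∀ w ∈ ball (0 : ℂ) 1, ‖f i w‖ ≤ C) (hψ : Symbol D p ψ) :
      Alg D p G (fun i z => f i (ψ z))
  | add (h k : I → ℂ × ℂ → ℂ) (hh : Alg D p G h) (hk : Alg D p G k) :
      Alg D p G (fun i z => h i z + k i z)
  | mul (h k : I → ℂ × ℂ → ℂ) (hh : Alg D p G h) (hk : Alg D p G k) :
      Alg D p G (fun i z => h i z * k i z)

theorem Alg.lalg {I : Type} {D : Set (ℂ × ℂ)} {p : ℂ × ℂ} {G h : I → ℂ × ℂ → ℂ}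
    (hh : Alg D p G h) : Pool.Agent.P157G.LAlg D p G h := by
  induction hh with
  | gen => exact .gen
  | comp f ψ hf hb hψ => exact .comp f ψ hf hb hψ.1 hψ.2
  | add h k _ _ ih ik => exact .add h k ih ik
  | mul h k _ _ ih ik => exact .mul h k ih ik

theorem tangent {ρ : ℂ × ℂ → ℝ} {p v : ℂ × ℂ} (h : Pool.Agent.P157G.dd ρ p v = 0) :
    fderiv ℝ ρ p v = 0 ∧ fderiv ℝ ρ p (Complex.I • v) = 0 := by
  have h1 : ∀ u, 2 * (Pool.Agent.P157G.dd ρ p u).re = fderiv ℝ ρ p u := fun u =>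
    Pool.Agent.P157G.G5z_lin (fderiv ℝ ρ p) u
  have h2 : Pool.Agent.P157G.dd ρ p (Complex.I • v) = Complex.I * Pool.Agent.P157G.dd ρ p v := by
    unfold Pool.Agent.P157G.dd
    simp only [Prod.smul_fst, Prod.smul_snd, smul_eq_mul]
    ring
  refine ⟨?_, ?_⟩
  · rw [← h1 v, h]
    simp
  · rw [← h1, h2, h]
    simp

/-- **Corona theorem on strictly pseudoconvex domains of `ℂ²`, local form.** Let `D` be a bounded strictly
pseudoconvex open subset of `ℂ²` and let `(F_{i,1}, …, F_{i,N})`, `i ∈ I`, be corona data on `D`,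
`|F_{i,j}| ≤ 1`, `∑_j |F_{i,j}| ≥ δ > 0`. Suppose that for every boundary point `p` there are a family
`G_i` of holomorphic functions on `D` near `p` with a common bound, a set `S` of indices, and
`c > 2 |S| ε ≥ 0`, such that on `D` near `p` one has `∑_{j ∈ S} |F_{i,j}| ≥ c`, and
`|F_{i,j} - h_{i,j}| ≤ ε` for `j ∈ S`, with a family `h_{i,j}` in the algebra generated by `G` and all
families `f_i ∘ ψ` (`ψ` holomorphic near `p`, `|ψ| < 1` on `D` near `p`, `f_i` bounded holomorphic on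
the disc). Then there are holomorphic functions `g_{i,j}` on `D`, bounded by a constant not
depending on `i`, with `∑_j F_{i,j} g_{i,j} = 1`. -/
theorem result {D : Set (ℂ × ℂ)} (hD : StrictlyPseudoconvex D) {I : Type} (N : ℕ)
    (F : I → Fin N → ℂ × ℂ → ℂ) (hF : ∀ i j, HolBdd D 1 (F i j))
    (δ : ℝ) (hδ : 0 < δ) (hlow : ∀ i, ∀ z ∈ D, δ ≤ ∑ j, ‖F i j z‖)
    (hloc : ∀ p ∈ frontier D, ∃ (G : I → ℂ × ℂ → ℂ) (S : Finset (Fin N))
      (h : Fin N → I → ℂ × ℂ → ℂ) (c ε r : ℝ),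
      BddNear D p G ∧ 0 < r ∧ 0 ≤ ε ∧ 2 * S.card * ε < c ∧
      (∀ i, ∀ z ∈ D ∩ ball p r, c ≤ ∑ j ∈ S, ‖F i j z‖) ∧
      ∀ j ∈ S, Alg D p G (h j) ∧ ∀ i, ∀ z ∈ D ∩ ball p r, ‖F i j z - h j i z‖ ≤ ε) :
    ∃ C : ℝ, ∀ i, ∃ g : Fin N → ℂ × ℂ → ℂ, (∀ j, HolBdd D C (g j)) ∧
      ∀ z ∈ D, ∑ j, F i j z * g j z = 1 := by
  obtain ⟨O, ρ, hO, hcl, hρ, hDO, hp⟩ := hD.defining
  obtain ⟨ρ', hN, hD'⟩ := Pool.Agent.P157G.nf_of hD.bounded hO hcl hρ hDO (fun p hpf => (hp p hpf).1)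
    (fun p hpf v hv hdd => (hp p hpf).2 v hv (tangent hdd).1 (tangent hdd).2)
  subst hD'
  refine Pool.Agent.P157G.famL hN hF hδ hlow ?_
  intro p hpf
  obtain ⟨G, S, h, c, ε, r, ⟨t, M, ht, hG⟩, hr, hε, hc, hl, ha⟩ := hloc p hpf
  refine ⟨G, S, h, c, ε, r, ⟨t, max M 0, ht, le_max_right _ _, fun i => ⟨(hG i).1, fun z hz =>
    ((hG i).2 z hz).trans (le_max_left _ _)⟩⟩, hr, hε, hc, hl, fun j hj => ⟨(ha j hj).1.lalg, (ha j hj).2⟩⟩

/-- The special case of tuples `f_1 ∘ ψ_1, …, f_K ∘ ψ_K, G`, with constants. -/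
theorem tuples {D : Set (ℂ × ℂ)} (hD : StrictlyPseudoconvex D) (K : ℕ) (ψ : Fin K → ℂ × ℂ → ℂ)
    (hψ : ∀ k, AnalyticOnNhd ℂ (ψ k) (closure D) ∧ ∀ z ∈ D, ‖ψ k z‖ < 1) (δ : ℝ) (hδ : 0 < δ) :
    ∃ C : ℝ, ∀ f : Fin K → ℂ → ℂ, (∀ k, DifferentiableOn ℂ (f k) (ball 0 1)) →
      (∀ k, ∀ w ∈ ball (0 : ℂ) 1, ‖f k w‖ ≤ 1) → ∀ G : ℂ × ℂ → ℂ, HolBdd D 1 G →
      (∀ z ∈ D, δ ≤ ∑ k, ‖f k (ψ k z)‖ + ‖G z‖) →
      ∃ (g : Fin K → ℂ × ℂ → ℂ) (g₀ : ℂ × ℂ → ℂ), (∀ k, HolBdd D C (g k)) ∧ HolBdd D C g₀ ∧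
        ∀ z ∈ D, ∑ k, f k (ψ k z) * g k z + G z * g₀ z = 1 := by
  let I : Type := {d : (Fin K → ℂ → ℂ) × (ℂ × ℂ → ℂ) //
    (∀ k, DifferentiableOn ℂ (d.1 k) (ball 0 1)) ∧ (∀ k, ∀ w ∈ ball (0 : ℂ) 1, ‖d.1 k w‖ ≤ 1) ∧
      HolBdd D 1 d.2 ∧ ∀ z ∈ D, δ ≤ ∑ k, ‖d.1 k (ψ k z)‖ + ‖d.2 z‖}
  let F : I → Fin (K + 1) → ℂ × ℂ → ℂ := fun i =>
    Fin.cons i.1.2 (fun k z => i.1.1 k (ψ k z))
  have hmap : ∀ k, MapsTo (ψ k) D (ball (0 : ℂ) 1) := fun k z hz =>
    mem_ball_zero_iff.2 ((hψ k).2 z hz)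
  have hF : ∀ i j, HolBdd D 1 (F i j) := by
    intro i j
    refine Fin.cases ?_ (fun k => ?_) j
    · exact i.2.2.2.1
    · exact ⟨(i.2.1 k).comp ((hψ k).1.differentiableOn.mono subset_closure) (hmap k),
        fun z hz => i.2.2.1 k _ (hmap k hz)⟩
  have hlow : ∀ i, ∀ z ∈ D, δ ≤ ∑ j, ‖F i j z‖ := by
    intro i z hz
    rw [Fin.sum_univ_succ, add_comm]
    exact i.2.2.2.2 z hz
  obtain ⟨C, hC⟩ := result hD (K + 1) F hF δ hδ hlow (fun p hp => by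
    refine ⟨fun i => F i 0, Finset.univ, fun j i => F i j, δ, 0, 1,
      ⟨1, 1, one_pos, fun i => ⟨(hF i 0).1.mono inter_subset_left, fun z hz => (hF i 0).2 z hz.1⟩⟩,
      one_pos, le_rfl, by simpa using hδ, fun i z hz => hlow i z hz.1, fun j _ => ⟨?_, fun i z hz => by simp⟩⟩
    refine Fin.cases ?_ (fun k => ?_) j
    · exact .gen
    · exact .comp (I := I) (fun i : I => i.1.1 k) (ψ k) (fun i : I => i.2.1 k)
        ⟨1, fun i : I => i.2.2.1 k⟩ ⟨(hψ k).1 p (frontier_subset_closure hp), Eventually.of_forall (hψ k).2⟩)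
  refine ⟨C, fun f hf hfb G hG hl => ?_⟩
  obtain ⟨g, hg, hs⟩ := hC ⟨(f, G), hf, hfb, hG, hl⟩
  refine ⟨fun k => g k.succ, g 0, fun k => hg _, hg 0, fun z hz => ?_⟩
  have h1 := hs z hz
  rw [Fin.sum_univ_succ, add_comm] at h1
  exact h1

/-- The special case of single data which near every boundary point are uniform limits of elements of
the algebra. -/
theorem limits {D : Set (ℂ × ℂ)} (hD : StrictlyPseudoconvex D) (N : ℕ) (F : Fin N → ℂ × ℂ → ℂ)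
    (hF : ∀ j, HolBdd D 1 (F j)) (δ : ℝ) (hδ : 0 < δ) (hlow : ∀ z ∈ D, δ ≤ ∑ j, ‖F j z‖)
    (hloc : ∀ p ∈ frontier D, ∃ G : ℂ × ℂ → ℂ, BddNear D p (fun _ : Unit => G) ∧ ∀ ε : ℝ, 0 < ε →
      ∃ r : ℝ, 0 < r ∧ ∀ j, ∃ h : Unit → ℂ × ℂ → ℂ, Alg D p (fun _ => G) h ∧
        ∀ z ∈ D ∩ ball p r, ‖F j z - h () z‖ ≤ ε) :
    ∃ (C : ℝ) (g : Fin N → ℂ × ℂ → ℂ), (∀ j, HolBdd D C (g j)) ∧
      ∀ z ∈ D, ∑ j, F j z * g j z = 1 := by
  obtain ⟨C, hC⟩ := result hD (I := Unit) N (fun _ => F) (fun _ j => hF j) δ hδ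
    (fun _ z hz => hlow z hz) (fun p hp => by
      obtain ⟨G, hG, happ⟩ := hloc p hp
      obtain ⟨r, hr, hh⟩ := happ (δ / (4 * (N + 1))) (by positivity)
      choose h hA hh using hh
      refine ⟨fun _ => G, Finset.univ, h, δ, δ / (4 * (N + 1)), r, hG, hr, by positivity, ?_,
        fun _ z hz => hlow z hz.1, fun j _ => ⟨hA j, fun _ z hz => hh j z hz⟩⟩
      rw [Finset.card_univ, Fintype.card_fin]
      have h1 : (0 : ℝ) < 4 * (N + 1) := by positivity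
      rw [← mul_div_assoc, div_lt_iff₀ h1]
      nlinarith [hδ, (Nat.cast_nonneg N : (0 : ℝ) ≤ N)])
  obtain ⟨g, hg⟩ := hC ()
  exact ⟨C, g, hg⟩

end Pool.Agent.Results.MP_ca0fc2_an.PseudoconvexLocal
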