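import Mathlib
import Pool.Agent.X882.MG.Poly

/-!
The corona problem on the unit ball of `ℂ^m` for tame functions and one arbitrary function: local
closed algebras, tubes around complex geodesics, functions which are polynomials transversally to
complex geodesics.
-/

set_option autoImplicit false

open Metric Set

namespace Pool.Agent.Results.MP_ca0fc2_an.TameData

/-- `ℂ^m` with the Euclidean norm. -/
abbrev V (m : ℕ) := EuclideanSpace ℂ (Fin m)

variable {m : ℕ}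

/-- `ψ` is an automorphism of the unit ball with inverse `φ`. -/
structure Auto (ψ φ : V m → V m) : Prop where
  hol : DifferentiableOn ℂ ψ (ball 0 1)
  hol_inv : DifferentiableOn ℂ φ (ball 0 1)
  maps : MapsTo ψ (ball 0 1) (ball 0 1)
  maps_inv : MapsTo φ (ball 0 1) (ball 0 1)
  left : ∀ z ∈ ball (0 : V m) 1, φ (ψ z) = z
  right : ∀ z ∈ ball (0 : V m) 1, ψ (φ z) = z

/-- The automorphisms of the ball (`‖e‖ = 1`, `|a| < 1`) which translate the complex geodesic
through `0` and `e`: `⟨e, mv e a z⟩ = (⟨e, z⟩ + a) / (1 + conj a ⟨e, z⟩)`. -/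
noncomputable def mv (e : V m) (a : ℂ) (z : V m) : V m :=
  (1 / (1 + starRingEnd ℂ a * inner ℂ e z)) •
    (((inner ℂ e z : ℂ) + a) • e + ((√(1 - ‖a‖ ^ 2) : ℝ) : ℂ) • (z - (inner ℂ e z : ℂ) • e))

/-- The function `(1 - ⟨q, z⟩) / 2`, which for `‖q‖ = 1` vanishes in the closed ball only at `q`. -/
noncomputable def cut (q z : V m) : ℂ := (1 - inner ℂ q z) / 2

/-- The contraction by `t` towards the complex geodesic through `0` and `e`. -/
noncomputable def slide (e : V m) (t : ℂ) (z : V m) : V m :=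
  (inner ℂ e z : ℂ) • e + t • (z - (inner ℂ e z : ℂ) • e)

/-- `f = u ∘ χ`, where `u` is holomorphic on the unit disc, `|u| ≤ 1`, and `χ` is a holomorphic
map from the ball to the disc whose fibre through any point `z` is the part in the ball of the affine
subspace `z + ker χ'(z)`; for instance `χ` linear, or linear fractional. -/
def AffineFibres (f : V m → ℂ) : Prop :=
  ∃ (u : ℂ → ℂ) (χ : V m → ℂ), DifferentiableOn ℂ u (ball 0 1) ∧
    (∀ w ∈ ball (0 : ℂ) 1, ‖u w‖ ≤ 1) ∧ DifferentiableOn ℂ χ (ball 0 1) ∧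
    (∀ z ∈ ball (0 : V m) 1, ‖χ z‖ < 1) ∧
    (∀ z ∈ ball (0 : V m) 1, ∀ z' ∈ ball (0 : V m) 1, χ z' = χ z ↔ fderiv ℂ χ z (z' - z) = 0) ∧
    ∀ z ∈ ball (0 : V m) 1, f z = u (χ z)

/-- The points of the ball at which the functions `E l` are smaller than `η`. -/
def Cell {L : Type} (E : L → V m → ℂ) (η : ℝ) : Set (V m) :=
  {z | z ∈ ball (0 : V m) 1 ∧ ∀ l, ‖E l z‖ < η}

/-- **Tame families** `f = (f x)`, relative to families `E = (E x l)` of cutoff functions: the
smallest class with the following properties.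
`small`: `f` is tame if its oscillation on the sets `Cell (E x) η` tends to `0` with `η`, uniformly
in `x`.
`zoom`: `f` is tame if for some automorphisms `ψ x` and all `q` on the sphere orthogonal to `e` the
family `f x ∘ ψ x ∘ mv e a`, indexed by all pairs `(x, a)`, is tame relative to the functions
`E x l ∘ ψ x ∘ mv e a` and `cut q`.
`values`: `f` is tame if for some functions `A x l` with affine fibres (`l` in a finite set) and
all numbers `c l`, `|c l| ≤ 1`, it is tame relative to the functions `E x l` and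
`(A x l - c l) / 2`. -/
inductive Tame (e : V m) : ∀ {X L : Type}, (X → L → V m → ℂ) → (X → V m → ℂ) → Prop
  | small {X L : Type} {E : X → L → V m → ℂ} {f : X → V m → ℂ}
      (h : ∀ ε : ℝ, 0 < ε → ∃ η : ℝ, 0 < η ∧ ∀ x, ∀ z ∈ Cell (E x) η, ∀ w ∈ Cell (E x) η,
        ‖f x z - f x w‖ ≤ ε) : Tame e E f
  | zoom {X L : Type} {E : X → L → V m → ℂ} {f : X → V m → ℂ}
      (ψ φ : X → V m → V m) (hψ : ∀ x, Auto (ψ x) (φ x))
      (h : ∀ q : V m, ‖q‖ = 1 → (inner ℂ e q : ℂ) = 0 →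
        Tame e (X := X × ball (0 : ℂ) 1) (L := L ⊕ Unit)
          (fun x l z => l.elim (fun l => E x.1 l (ψ x.1 (mv e x.2 z))) (fun _ => cut q z))
          (fun x z => f x.1 (ψ x.1 (mv e x.2 z)))) : Tame e E f
  | values {X L L' : Type} [Fintype L'] {E : X → L → V m → ℂ} {f : X → V m → ℂ}
      (A : X → L' → V m → ℂ) (hA : ∀ x l, AffineFibres (A x l))
      (h : ∀ c : L' → ℂ, (∀ l, ‖c l‖ ≤ 1) → Tame e (L := L ⊕ L')
        (fun x l z => l.elim (fun l => E x l z) (fun l => (A x l z - c l) / 2)) f) : Tame e E f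

/-- `n` tubes for every `x`: the `i`-th tube has a fixed pseudohyperbolic radius `ρ i < 1`, and its
axis is the image of the complex geodesic through `0` and `e` under the automorphism `ψ x i`. -/
structure Tubes (m : ℕ) (X : Type) (n : ℕ) where
  ψ : X → Fin n → V m → V m
  φ : X → Fin n → V m → V m
  auto : ∀ x i, Auto (ψ x i) (φ x i)
  ρ : Fin n → ℝ
  radius : ∀ i, 0 ≤ ρ i ∧ ρ i < 1

/-- The points `z` which lie in none of the tubes of index `x`: the pseudohyperbolic distance of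
`φ x i z` to the geodesic through `0` and `e` is larger than `ρ i`. -/
def Tubes.Outside {X : Type} {n : ℕ} (T : Tubes m X n) (e : V m) (x : X) (z : V m) : Prop :=
  ∀ i, T.ρ i ^ 2 * (1 - ‖(inner ℂ e (T.φ x i z) : ℂ)‖ ^ 2) <
    ‖T.φ x i z - (inner ℂ e (T.φ x i z) : ℂ) • e‖ ^ 2

/-- `f` is up to `ε`, near the boundary point `p` and outside of finitely many tubes, a polynomial
in `G` and finitely many bounded holomorphic families which are tame relative to `cut p`. -/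
def NearAlgebra (e p : V m) (ε : ℝ) {X : Type} (G f : X → V m → ℂ) : Prop :=
  ∃ (n L : ℕ) (T : Tubes m X n) (r M : ℝ) (h : X → Fin L → V m → ℂ)
    (P : MvPolynomial (Option (Fin L)) ℂ), 0 < r ∧
    (∀ x l, DifferentiableOn ℂ (h x l) (ball 0 1)) ∧
    (∀ x l, ∀ z ∈ ball (0 : V m) 1, ‖h x l z‖ ≤ M) ∧
    (∀ l, Tame e (X := X) (L := Unit) (fun _ _ => cut p) (fun x => h x l)) ∧
    ∀ x, ∀ z ∈ ball (0 : V m) 1, ‖z - p‖ < r → T.Outside e x z →
      ‖f x z - MvPolynomial.eval (fun o => o.elim (G x z) (fun l => h x l z)) P‖ ≤ ε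

/-- Corona data with lower bound `δ`: holomorphic functions on the ball, bounded by `1`, with
`δ ≤ ∑ |F j|`. -/
def Datum {N : ℕ} (δ : ℝ) (F : Fin N → V m → ℂ) : Prop :=
  (∀ j, DifferentiableOn ℂ (F j) (ball 0 1)) ∧ (∀ j, ∀ z ∈ ball (0 : V m) 1, ‖F j z‖ ≤ 1) ∧
    ∀ z ∈ ball (0 : V m) 1, δ ≤ ∑ j, ‖F j z‖

/-- `∑ F j * g j = 1` for some holomorphic functions `g j` on the ball, bounded by `C`. -/
def Solvable {N : ℕ} (F : Fin N → V m → ℂ) (C : ℝ) : Prop :=
  ∃ g : Fin N → V m → ℂ, (∀ j, DifferentiableOn ℂ (g j) (ball 0 1)) ∧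
    (∀ j, ∀ z ∈ ball (0 : V m) 1, ‖g j z‖ ≤ C) ∧ ∀ z ∈ ball (0 : V m) 1, ∑ j, F j z * g j z = 1

/-- Near `p` and outside of tubes, the members `F x j`, `j ∈ S`, of the data have no common zeros
(`c ≤ ∑ |F x j|`) and are up to `ε < c / (2 |S|)` polynomials in one arbitrary bounded holomorphic
family `G` and tame families. Nothing is assumed about the other members. -/
def LocallyTame (e p : V m) {X : Type} {N : ℕ} (F : X → Fin N → V m → ℂ) : Prop :=
  ∃ (S : Finset (Fin N)) (G : X → V m → ℂ) (n : ℕ) (T : Tubes m X n) (R r c ε : ℝ),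
    0 < r ∧ 0 < c ∧ 2 * S.card * ε < c ∧ (∀ x, DifferentiableOn ℂ (G x) (ball 0 1)) ∧
    (∀ x, ∀ z ∈ ball (0 : V m) 1, ‖G x z‖ ≤ R) ∧
    (∀ x, ∀ z ∈ ball (0 : V m) 1, ‖z - p‖ < r → T.Outside e x z → c ≤ ∑ j ∈ S, ‖F x j z‖) ∧
    ∀ j ∈ S, NearAlgebra e p ε G (fun x => F x j)

/-- `h` is a polynomial of degree at most `d` transversally to some complex geodesic (the image
under the automorphism `ψ` of the geodesic through `0` and `e`). -/
def TransPoly (e : V m) (d : ℕ) (h : V m → ℂ) : Prop :=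
  ∃ ψ φ : V m → V m, Auto ψ φ ∧ ∀ z ∈ ball (0 : V m) 1, ∃ P : Polynomial ℂ, P.natDegree ≤ d ∧
    ∀ w : ℂ, ‖w‖ ≤ 1 → h (ψ (slide e w z)) = P.eval w

/-- `f x`, holomorphic and bounded by `1`, is uniformly continuous under the contractions towards a
complex geodesic which may depend on `x`. -/
def SlideContinuous (e : V m) {X : Type} (f : X → V m → ℂ) : Prop :=
  (∀ x, DifferentiableOn ℂ (f x) (ball 0 1) ∧ ∀ z ∈ ball (0 : V m) 1, ‖f x z‖ ≤ 1) ∧
  ∃ ψ φ : X → V m → V m, (∀ x, Auto (ψ x) (φ x)) ∧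
    ∀ ε : ℝ, 0 < ε → ∃ t : ℝ, 0 ≤ t ∧ t < 1 ∧ ∀ x, ∀ z ∈ ball (0 : V m) 1,
      ‖f x (ψ x z) - f x (ψ x (slide e t z))‖ ≤ ε

/-- `f x` is scaled continuous along a complex geodesic which may depend on `x`: the functions
`f x ∘ ψ x ∘ mv e a` are equicontinuous at all points `q` of the sphere orthogonal to `e`. -/
def ScaledContinuous (e : V m) {X : Type} (f : X → V m → ℂ) : Prop :=
  ∃ ψ φ : X → V m → V m, (∀ x, Auto (ψ x) (φ x)) ∧
    ∀ q : V m, ‖q‖ = 1 → (inner ℂ e q : ℂ) = 0 → ∀ ε : ℝ, 0 < ε → ∃ r : ℝ, 0 < r ∧ ∀ x,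
      ∀ a ∈ ball (0 : ℂ) 1, ∀ z ∈ ball (0 : V m) 1, ∀ w ∈ ball (0 : V m) 1,
        ‖z - q‖ < r → ‖w - q‖ < r → ‖f x (ψ x (mv e a z)) - f x (ψ x (mv e a w))‖ ≤ ε

theorem Auto.aut {ψ φ : V m → V m} (h : Auto ψ φ) : TH310.Cor.Aut ψ φ :=
  ⟨h.hol, h.hol_inv, h.maps, h.maps_inv, h.left, h.right⟩

theorem Auto.of {ψ φ : V m → V m} (h : TH310.Cor.Aut ψ φ) : Auto ψ φ :=
  ⟨h.d1, h.d2, h.m1, h.m2, h.i1, h.i2⟩

theorem aff_iff (f : V m → ℂ) : AffineFibres f ↔ X882.MG.AFF f := by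
  constructor
  · rintro ⟨u, χ, h1, h2, h3, h4, h5, h6⟩
    exact ⟨u, χ, h1, h2, ⟨⟨h3, h5⟩, h4⟩, h6⟩
  · rintro ⟨u, χ, h1, h2, ⟨⟨h3, h5⟩, h4⟩, h6⟩
    exact ⟨u, χ, h1, h2, h3, h4, h5, h6⟩

theorem Tame.out {e : V m} {X L : Type} {E : X → L → V m → ℂ} {f : X → V m → ℂ}
    (h : Tame e E f) : X882.MG.Tame e E f := by
  induction h with
  | small h => exact X882.MG.Tame.small h
  | zoom ψ φ hψ h ih => exact X882.MG.Tame.zoom ψ φ (fun x => (hψ x).aut) ih
  | values A hA h ih => exact X882.MG.Tame.values A (fun x l => (aff_iff _).1 (hA x l)) ih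

theorem Tame.of {e : V m} {X L : Type} {E : X → L → V m → ℂ} {f : X → V m → ℂ}
    (h : X882.MG.Tame e E f) : Tame e E f := by
  induction h with
  | small h => exact Tame.small h
  | zoom ψ φ hψ h ih => exact Tame.zoom ψ φ (fun x => Auto.of (hψ x)) ih
  | values A hA h ih => exact Tame.values A (fun x l => (aff_iff _).2 (hA x l)) ih

theorem out_iff {X : Type} {n : ℕ} (T : Tubes m X n) (e : V m) (x : X) (z : V m) :
    T.Outside e x z ↔ ∀ i, T.φ x i z ∉ X882.MG.Tub e (T.ρ i) :=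
  forall_congr' fun i => ⟨fun h h' => absurd h' (not_le.2 h), fun h => not_le.1 h⟩

theorem NearAlgebra.out {e p : V m} {ε : ℝ} {X : Type} {G f : X → V m → ℂ}
    (h : NearAlgebra e p ε G f) : X882.MG.Alg e p ε G f := by
  obtain ⟨n, L, T, r, M, k, P, h1, h2, h3, h4, h5⟩ := h
  exact ⟨n, L, T.ψ, T.φ, T.ρ, r, M, k, P, T.radius, h1, fun x i => (T.auto x i).aut, h2, h3,
    fun l => (h4 l).out, fun x z hz hzp ho => h5 x z hz hzp ((out_iff T e x z).2 ho)⟩

/-- **Tame functions and one arbitrary function.** -/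
theorem result (m : ℕ) (e : V m) (he : ‖e‖ = 1) (N : ℕ) (δ : ℝ) (hδ : 0 < δ) :
    -- (1) data which locally, outside of tubes, are close to algebras generated by one arbitrary
    -- family and tame families
    (∀ (X : Type) (F : X → Fin N → V m → ℂ), (∀ x, Datum δ (F x)) →
      (∀ p : V m, ‖p‖ = 1 → LocallyTame e p F) → ∃ C : ℝ, ∀ x, Solvable (F x) C) ∧
    -- (2) one arbitrary function `f 0` and `N` functions close to functions which are polynomials
    -- of degree at most `d` transversally to complex geodesics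
    (∀ (d : ℕ) (κ : ℝ), 0 ≤ κ → 2 * (N + 1) * κ < δ → ∃ C : ℝ, ∀ f : Fin (N + 1) → V m → ℂ,
      Datum δ f → (∀ j : Fin N, ∃ h : V m → ℂ, DifferentiableOn ℂ h (ball 0 1) ∧
        TransPoly e d h ∧ ∀ z ∈ ball (0 : V m) 1, ‖f j.succ z - h z‖ ≤ κ) → Solvable f C) ∧
    -- (3) tame families, for arbitrary cutoff functions `E`
    (∀ (X L : Type) (E : X → L → V m → ℂ) (f : X → V m → ℂ),
      (∀ x, AffineFibres (f x)) ∨ SlideContinuous e f ∨ ScaledContinuous e f → Tame e E f) := by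
  have hmv := W732.Cor.t_mv
  have hball := W732.Cor.t_ball
  have hsc := W732.Cor.t_sc2
  refine ⟨fun X F hF hloc => ?_, fun d κ hκ0 hκ => ?_, ?_⟩
  · refine X882.MG.final hmv hball he (F := F) (fun x j => ⟨(hF x).1 j, (hF x).2.1 j⟩) hδ
      (fun x => (hF x).2.2) fun p hp => ?_
    obtain ⟨S, G, n, T, R, r, c, ε, h1, h2, h3, h4, h5, h6, h7⟩ := hloc p hp
    exact ⟨S, G, R, n, T.ψ, T.φ, T.ρ, r, c, ε, h3, h4, h5, T.radius, h1, h2,
      fun x i => (T.auto x i).aut,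
      fun x z hz hzp ho => h6 x z hz hzp ((out_iff T e x z).2 ho), fun j hj => (h7 j hj).out⟩
  · obtain ⟨C, hC⟩ := X882.MG.cor_poly hmv hball hsc m N d hδ hκ0 hκ e he
    refine ⟨C, fun f hf h => ?_⟩
    choose k hk hk2 hk3 using h
    choose ψ φ hψ hP using hk2
    exact hC f k ψ φ (fun j => ⟨hf.1 j, hf.2.1 j⟩) hf.2.2 hk hk3 (fun j => (hψ j).aut) hP
  · rintro X L E f (h | ⟨hf, ψ, φ, hψ, h⟩ | ⟨ψ, φ, hψ, h⟩)
    · exact Tame.of (X882.MG.tame_aff e E fun x => (aff_iff _).1 (h x))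
    · exact Tame.of (X882.MG.tame_contr hsc he E ψ φ (fun x => (hψ x).aut)
        (fun x => ⟨(hf x).1, (hf x).2⟩) h)
    · exact Tame.of (X882.MG.tame_sc e E ψ φ (fun x => (hψ x).aut) h)

end Pool.Agent.Results.MP_ca0fc2_an.TameData
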